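import Pool.Agent.J4H58.SB.Bas

/-!
# KB-CONNB: connectivity of the admissible placements under the elementary moves (for helper58)
-/

set_option autoImplicit false

namespace Pool.Agent.J4H18.KB

open Pool.Agent.J4H58.SB

variable {n N : ℕ} {R : SL n → SL n → Prop}

lemma rf_mirror {k : ℕ} (hk : k + 1 < 2 * N) (p : ℕ) :
    rf N k (k + 1) p = rf N (2 * N - 2 - k) (2 * N - 2 - k + 1) p := by
  rw [rf_apply (by omega) (by omega) (by omega), rf_apply (by omega) (by omega) (by omega)]
  unfold mir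
  split_ifs <;> omega

lemma mvB_mirror {k : ℕ} (hk : k + 1 < 2 * N) (g : Fin n → ℕ) :
    mvB N k (k + 1) g = mvB N (2 * N - 2 - k) (2 * N - 2 - k + 1) g :=
  funext fun a => rf_mirror hk (g a)

lemma mvB_mem' (hS : Sy R) {g : Fin n → ℕ} (hg : g ∈ cfgB N R) {k : ℕ} (hk : k + 1 < 2 * N)
    (h : ∀ x y, R x y → ¬ (ps N g x = k ∧ ps N g y = k + 1)) : mvB N k (k + 1) g ∈ cfgB N R := by
  by_cases hkN : k < N
  · exact (mvB_mem_iff hS hg hkN).mpr h
  · rw [mvB_mirror hk]
    refine (mvB_mem_iff hS hg (by omega)).mpr fun x y hxy hh => ?_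
    have hb := (mem_cfgB.mp hg).1
    refine h (ng y) (ng x) (hS x y hxy) ⟨?_, ?_⟩
    · rw [ps_ng hb, hh.2]; unfold mir; omega
    · rw [ps_ng hb, hh.1]; unfold mir; omega

lemma inv_mirror {F : (Fin n → ℕ) → ℝ}
    (hF : ∀ g ∈ cfgB N R, ∀ k, k < N → mvB N k (k + 1) g ∈ cfgB N R → F (mvB N k (k + 1) g) = F g)
    {g : Fin n → ℕ} (hg : g ∈ cfgB N R) {k : ℕ} (hk : k + 1 < 2 * N)
    (hm : mvB N k (k + 1) g ∈ cfgB N R) : F (mvB N k (k + 1) g) = F g := by
  by_cases hkN : k < N
  · exact hF g hg k hkN hm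
  · rw [mvB_mirror hk] at hm ⊢
    exact hF g hg _ (by omega) hm

/-- the square distance, one label -/
def Dt (N : ℕ) (g g' h : Fin n → ℕ) (z : SL n) : ℤ :=
  ((ps N g z : ℤ) - ps N h z) ^ 2 - ((ps N g' z : ℤ) - ps N h z) ^ 2

lemma cast_mir {p : ℕ} (h : p < 2 * N) : ((mir N p : ℕ) : ℤ) = 2 * (N : ℤ) - 1 - p := by
  unfold mir; omega

lemma Dt_ng {g g' h : Fin n → ℕ} (h1 : ∀ a, g a < 2 * N) (h2 : ∀ a, g' a < 2 * N)
    (h3 : ∀ a, h a < 2 * N) (z : SL n) : Dt N g g' h (ng z) = Dt N g g' h z := by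
  unfold Dt
  rw [ps_ng h1, ps_ng h2, ps_ng h3, cast_mir (ps_lt h1 z), cast_mir (ps_lt h2 z),
    cast_mir (ps_lt h3 z)]
  ring

lemma Dt_true {g g' h : Fin n → ℕ} (h1 : ∀ a, g a < 2 * N) (h2 : ∀ a, g' a < 2 * N)
    (h3 : ∀ a, h a < 2 * N) (z : SL n) :
    ((g z.1 : ℤ) - h z.1) ^ 2 - ((g' z.1 : ℤ) - h z.1) ^ 2 = Dt N g g' h z := by
  obtain ⟨a, b⟩ := z
  cases b
  · rw [← Dt_ng h1 h2 h3]
    simp [Dt, ng, ps]
  · simp [Dt, ps]

theorem step (hS : Sy R) {g h : Fin n → ℕ} (hg : g ∈ cfgB N R)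
    (hh : h ∈ cfgB N R) (hex : ∃ x, ps N g x < ps N h x) :
    ∃ k, k + 1 < 2 * N ∧ mvB N k (k + 1) g ∈ cfgB N R ∧
      ∑ a, ((mvB N k (k + 1) g a : ℤ) - h a) ^ 2 < ∑ a, ((g a : ℤ) - h a) ^ 2 := by
  classical
  have hg' := mem_cfgB.1 hg
  have hh' := mem_cfgB.1 hh
  obtain ⟨x, hx, hmax⟩ := Finset.exists_max_image
    (Finset.univ.filter (fun x : SL n => ps N g x < ps N h x)) (ps N g)
    (by
      obtain ⟨a, ha⟩ := hex
      exact ⟨a, Finset.mem_filter.2 ⟨Finset.mem_univ _, ha⟩⟩)
  rw [Finset.mem_filter] at hx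
  have hx2 := hx.2
  have hxh := ps_lt hh'.1 x
  obtain ⟨k, hk⟩ : ∃ k, k = ps N g x := ⟨_, rfl⟩
  have hk2 : k + 1 < 2 * N := by omega
  have hi : k < 2 * N := by omega
  have hij : k ≠ k + 1 := by omega
  -- the new placement
  obtain ⟨g', eg'⟩ : ∃ g', g' = mvB N k (k + 1) g := ⟨_, rfl⟩
  have hps : ∀ z, ps N g' z = rf N k (k + 1) (ps N g z) := fun z => by
    rw [eg', ps_mvB hi hk2 hij hg'.1]
  have hb' : ∀ a, g' a < 2 * N := fun a => by
    rw [eg']; exact rf_lt hi hk2 hij (hg'.1 a)
  have hx' : ps N g' x = k + 1 := by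
    rw [hps, ← hk, rf_apply hi hk2 hij]; simp
  -- labels which do not move
  have hfix : ∀ z : SL n, ps N g z ≠ k → ps N g z ≠ k + 1 → ps N g (ng z) ≠ k →
      ps N g (ng z) ≠ k + 1 → ps N g' z = ps N g z := by
    intro z e1 e2 e3 e4
    rw [ps_ng hg'.1] at e3 e4
    rw [hps, rf_apply hi hk2 hij]
    have := ps_lt hg'.1 z
    unfold mir at e3 e4 ⊢
    split_ifs <;> omega
  have hsum : ∑ a, ((g a : ℤ) - h a) ^ 2 - ∑ a, ((g' a : ℤ) - h a) ^ 2 =
      ∑ a, Dt N g g' h (a, true) := by
    rw [← Finset.sum_sub_distrib]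
    exact Finset.sum_congr rfl fun a _ => Dt_true hg'.1 hb' hh'.1 (a, true)
  have hDt : ∀ z : SL n, Dt N g g' h (z.1, true) = Dt N g g' h z := by
    intro z
    rw [← Dt_true hg'.1 hb' hh'.1 (z.1, true), ← Dt_true hg'.1 hb' hh'.1 z]
  have hDx : Dt N g g' h x = 2 * ((ps N h x : ℤ) - k) - 1 := by
    unfold Dt
    rw [hx', ← hk]
    push_cast
    ring
  refine ⟨k, hk2, ?_⟩
  rw [← eg']
  by_cases hy : ∃ y, ps N g y = k + 1 ∧ y.1 ≠ x.1
  · obtain ⟨y, hy1, hy2⟩ := hy
    have hyh : ps N h y ≤ k + 1 := by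
      by_contra hcon
      push Not at hcon
      have := hmax y (Finset.mem_filter.2 ⟨Finset.mem_univ _, by omega⟩)
      omega
    have hne : ps N h y ≠ ps N h x := fun e => hy2 (congrArg Prod.fst (hh'.2.1 e))
    have hlt : ps N h y < ps N h x := by omega
    have hy' : ps N g' y = k := by
      rw [hps, hy1, rf_apply hi hk2 hij]; simp
    have hDy : Dt N g g' h y = 2 * ((k : ℤ) - ps N h y) + 1 := by
      unfold Dt
      rw [hy', hy1]
      push_cast
      ring
    refine ⟨?_, ?_⟩
    · rw [eg']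
      apply mvB_mem' hS hg hk2
      rintro c d hcd ⟨h1, h2⟩
      have e1 : c = x := hg'.2.1 (h1.trans hk)
      have e2 : d = y := hg'.2.1 (h2.trans hy1.symm)
      rw [e1, e2] at hcd
      have := hh'.2.2 x y hcd
      omega
    · have h1 : ∑ a, Dt N g g' h (a, true) = Dt N g g' h (x.1, true) + Dt N g g' h (y.1, true) := by
        apply Finset.sum_eq_add x.1 y.1 hy2.symm
        · rintro c _ ⟨hca, hcb⟩
          have : ps N g' (c, true) = ps N g (c, true) := by
            apply hfix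
            · intro e
              exact hca (congrArg Prod.fst (hg'.2.1 (e.trans hk)))
            · intro e
              exact hcb (congrArg Prod.fst (hg'.2.1 (e.trans hy1.symm)))
            · intro e
              exact hca (congrArg Prod.fst (hg'.2.1 (e.trans hk)))
            · intro e
              exact hcb (congrArg Prod.fst (hg'.2.1 (e.trans hy1.symm)))
          unfold Dt
          rw [this, sub_self]
        · intro h'
          exact absurd (Finset.mem_univ _) h'
        · intro h'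
          exact absurd (Finset.mem_univ _) h'
      rw [h1, hDt x, hDt y, hDx, hDy] at hsum
      omega
  · push Not at hy
    refine ⟨?_, ?_⟩
    · rw [eg']
      apply mvB_mem' hS hg hk2
      rintro c d hcd ⟨h1, h2⟩
      have e1 : c = x := hg'.2.1 (h1.trans hk)
      have e2 := hy d h2
      have e3 : d = ng x := by
        obtain ⟨d1, d2⟩ := d
        obtain ⟨x1, x2⟩ := x
        simp only at e2
        subst e2
        have : d2 ≠ x2 := by
          rintro rfl
          omega
        unfold ng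
        simp only [Prod.mk.injEq, true_and]
        cases d2 <;> cases x2 <;> simp_all
      rw [e1, e3] at hcd
      have h4 := hh'.2.2 _ _ hcd
      rw [ps_ng hh'.1] at h4
      rw [e3, ps_ng hg'.1, ← hk] at h2
      unfold mir at h2 h4
      omega
    · have h1 : ∑ a, Dt N g g' h (a, true) = Dt N g g' h (x.1, true) := by
        apply Finset.sum_eq_single x.1
        · rintro c _ hca
          have : ps N g' (c, true) = ps N g (c, true) := by
            apply hfix
            · intro e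
              exact hca (congrArg Prod.fst (hg'.2.1 (e.trans hk)))
            · intro e
              exact hca (hy _ e)
            · intro e
              exact hca (congrArg Prod.fst (hg'.2.1 (e.trans hk)))
            · intro e
              exact hca (hy _ e)
          unfold Dt
          rw [this, sub_self]
        · intro h'
          exact absurd (Finset.mem_univ _) h'
      rw [h1, hDt x, hDx] at hsum
      omega

theorem t_CONNB : S_CONNB := by
  intro n N R F hS hF
  have key : ∀ m : ℕ, ∀ g ∈ cfgB N R, ∀ h ∈ cfgB N R,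
      ∑ a, ((g a : ℤ) - h a) ^ 2 ≤ (m : ℤ) → F g = F h := by
    intro m
    induction m with
    | zero =>
      intro g _ h _ hm
      have h0 : ∀ a ∈ Finset.univ, (0 : ℤ) ≤ ((g a : ℤ) - h a) ^ 2 := fun a _ => sq_nonneg _
      have h1 : ∑ a, ((g a : ℤ) - h a) ^ 2 = 0 :=
        le_antisymm (by simpa using hm) (Finset.sum_nonneg h0)
      rw [Finset.sum_eq_zero_iff_of_nonneg h0] at h1
      have h2 : g = h := by
        funext a
        have h3 := h1 a (Finset.mem_univ a)
        rw [sq_eq_zero_iff, sub_eq_zero] at h3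
        exact_mod_cast h3
      rw [h2]
    | succ m ih =>
      intro g hg h hh hm
      by_cases hgh : g = h
      · rw [hgh]
      · have hex : ∃ x, ps N g x < ps N h x := by
          obtain ⟨a, ha⟩ := Function.ne_iff.mp hgh
          have b1 := (mem_cfgB.mp hg).1 a
          have b2 := (mem_cfgB.mp hh).1 a
          rcases lt_or_gt_of_ne ha with h1 | h1
          · exact ⟨(a, true), by simpa [ps] using h1⟩
          · refine ⟨(a, false), ?_⟩
            simp only [ps, Bool.false_eq_true, if_false]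
            unfold mir
            omega
        obtain ⟨k, hk, hmem, hlt⟩ := step hS hg hh hex
        rw [← inv_mirror hF hg hk hmem]
        apply ih _ hmem h hh
        push_cast at hm
        linarith
  intro g hg h hh
  have h0 : (0 : ℤ) ≤ ∑ a, ((g a : ℤ) - h a) ^ 2 := Finset.sum_nonneg fun a _ => sq_nonneg _
  obtain ⟨m, hm⟩ := Int.eq_ofNat_of_zero_le h0
  exact key m g hg h hh (le_of_eq hm)

end Pool.Agent.J4H18.KB
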