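import Pool.Agent.J4H58.SB.Stm
import Pool.Agent.J4H47.OC.Q

/-!
# KB-GOODB: symmetrisation of the weight and of the lattice function (for helper58)
-/

set_option autoImplicit false

namespace Pool.Agent.J4H18.KB

open MeasureTheory Set Filter Topology
open Pool.Agent.R972.OP (WC)
open Pool.Agent.J4H58.OC (LD nu rt qt Fc Good)
open Pool.Agent.J4H58.SB

/-- symmetrised function -/
noncomputable def sW (N : ℕ) (W : ℕ → ℝ) (m : ℝ) (k : ℕ) : ℝ := (W k + 2 * m - W (mir N k)) / 2

/-- symmetrised rates -/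
noncomputable def sc (N : ℕ) (W c : ℕ → ℝ) (k : ℕ) : ℝ :=
  (c k * (W (k + 1) - W k) + c (2 * N - 2 - k) * (W (2 * N - 2 - k + 1) - W (2 * N - 2 - k))) /
    ((W (k + 1) - W k) + (W (2 * N - 2 - k + 1) - W (2 * N - 2 - k)))

lemma sW_diff (N : ℕ) (W : ℕ → ℝ) (m : ℝ) {k : ℕ} (hk : k + 1 < 2 * N) :
    sW N W m (k + 1) - sW N W m k =
      ((W (k + 1) - W k) + (W (2 * N - 2 - k + 1) - W (2 * N - 2 - k))) / 2 := by
  have e1 : mir N (k + 1) = 2 * N - 2 - k := by unfold mir; omega
  have e2 : mir N k = 2 * N - 2 - k + 1 := by unfold mir; omega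
  unfold sW
  rw [e1, e2]
  ring

lemma d_pos {N : ℕ} {W c : ℕ → ℝ} {m : ℝ} (h : WC (2 * N) W c m) {k : ℕ} (hk : k + 1 < 2 * N) :
    0 < W (k + 1) - W k := sub_pos.mpr (h.mono k hk)

lemma sc_flux {N : ℕ} {W c : ℕ → ℝ} {m : ℝ} (h : WC (2 * N) W c m) {k : ℕ}
    (hk : k + 1 < 2 * N) :
    sc N W c k * (sW N W m (k + 1) - sW N W m k) =
      (c k * (W (k + 1) - W k) +
        c (2 * N - 2 - k) * (W (2 * N - 2 - k + 1) - W (2 * N - 2 - k))) / 2 := by
  rw [sW_diff N W m hk]
  have h1 := d_pos h hk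
  have h2 := d_pos h (k := 2 * N - 2 - k) (by omega)
  unfold sc
  have h3 : (W (k + 1) - W k) + (W (2 * N - 2 - k + 1) - W (2 * N - 2 - k)) ≠ 0 := by
    positivity
  field_simp

lemma sym_WB {N : ℕ} {W c : ℕ → ℝ} {m : ℝ} (h : WC (2 * N) W c m) :
    WB N (sW N W m) (sc N W c) m where
  wc := by
    refine ⟨fun k hk => ?_, fun k hk => ?_, fun j hj => ?_⟩
    · have h1 := d_pos h hk
      have h2 := d_pos h (k := 2 * N - 2 - k) (by omega)
      have h3 := sW_diff N W m hk
      linarith
    · have h1 := d_pos h hk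
      have h2 := d_pos h (k := 2 * N - 2 - k) (by omega)
      have h3 := h.nonneg k hk
      have h4 := h.nonneg (2 * N - 2 - k) (by omega)
      unfold sc
      positivity
    · -- the equation
      have hj' : 2 * N - 1 - j < 2 * N := by omega
      have E1 := h.eq j hj
      have E2 := h.eq (2 * N - 1 - j) hj'
      have goal2 : m - sW N W m j = ((m - W j) - (m - W (2 * N - 1 - j))) / 2 := by
        unfold sW mir; ring
      rw [goal2, ← E1, ← E2]
      by_cases h0 : 0 < j
      · by_cases h1 : j + 1 < 2 * N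
        · rw [if_pos h1, if_pos h0, if_pos h1, if_pos h0,
            if_pos (show 2 * N - 1 - j + 1 < 2 * N by omega),
            if_pos (show 0 < 2 * N - 1 - j by omega)]
          have F1 := sc_flux h (k := j) h1
          have F2 := sc_flux h (k := j - 1) (by omega)
          have e1 : j - 1 + 1 = j := by omega
          have e2 : 2 * N - 2 - (j - 1) = 2 * N - 1 - j := by omega
          have e3 : 2 * N - 1 - j - 1 = 2 * N - 2 - j := by omega
          have e4 : 2 * N - 2 - j + 1 = 2 * N - 1 - j := by omega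
          rw [e4] at F1
          rw [e1, e2] at F2
          rw [F1, F2, e3]
          ring
        · rw [if_neg h1, if_pos h0, if_neg h1, if_pos h0,
            if_pos (show 2 * N - 1 - j + 1 < 2 * N by omega),
            if_neg (show ¬ 0 < 2 * N - 1 - j by omega)]
          have F2 := sc_flux h (k := j - 1) (by omega)
          have e1 : j - 1 + 1 = j := by omega
          have e2 : 2 * N - 2 - (j - 1) = 2 * N - 1 - j := by omega
          rw [e1, e2] at F2
          rw [F2]
          ring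
      · by_cases h1 : j + 1 < 2 * N
        · rw [if_pos h1, if_neg h0, if_pos h1, if_neg h0,
            if_neg (show ¬ 2 * N - 1 - j + 1 < 2 * N by omega),
            if_pos (show 0 < 2 * N - 1 - j by omega)]
          have F1 := sc_flux h (k := j) h1
          have e3 : 2 * N - 1 - j - 1 = 2 * N - 2 - j := by omega
          have e4 : 2 * N - 2 - j + 1 = 2 * N - 1 - j := by omega
          rw [e4] at F1
          rw [F1, e3]
          ring
        · exfalso; omega
  odd := by
    intro k hk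
    have e : mir N (mir N k) = k := by unfold mir; omega
    unfold sW
    rw [e]
    ring
  sym := by
    intro k hk
    have e : 2 * N - 2 - (2 * N - 2 - k) = k := by omega
    unfold sc
    rw [e]
    congr 1 <;> ring

lemma sc_le {N : ℕ} {W c : ℕ → ℝ} {m : ℝ} (h : WC (2 * N) W c m) {k : ℕ}
    (hk : k + 1 < 2 * N) {B : ℝ} (h1 : c k ≤ B) (h2 : c (2 * N - 2 - k) ≤ B) :
    sc N W c k ≤ B := by
  have h3 := d_pos h hk
  have h4 := d_pos h (k := 2 * N - 2 - k) (by omega)
  unfold sc
  rw [div_le_iff₀ (by positivity)]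
  nlinarith [mul_le_mul_of_nonneg_right h1 h3.le, mul_le_mul_of_nonneg_right h2 h4.le]

lemma Fc_neg {w : ℝ → ℝ} (h : LD w) (he : ∀ x, w (-x) = w x) (t : ℝ) :
    Fc w (-t) = 1 - Fc w t := by
  unfold Fc
  have h1 : ∫ x in Iic (-t), w x = ∫ x in Ioi t, w x := by
    have := integral_comp_neg_Iic (-t) w
    rw [neg_neg] at this
    rw [← this]
    apply integral_congr_ae
    exact Eventually.of_forall fun x => (he x).symm
  have h2 : (∫ x in Iic t, w x) + ∫ x in Ioi t, w x = ∫ x, w x :=
    intervalIntegral.integral_Iic_add_Ioi h.int.integrableOn h.int.integrableOn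
  rw [h.one] at h2
  rw [h1]
  linarith

lemma qt_symm {w : ℝ → ℝ} (h : LD w) (he : ∀ x, w (-x) = w x) {x : ℝ}
    (hx : x ∈ Ioo (0 : ℝ) 1) : qt w (1 - x) = -qt w x := by
  obtain ⟨q1, q2, -⟩ := Pool.Agent.J4H47.OC.t_Q w h
  have e : Fc w (-qt w x) = 1 - x := by rw [Fc_neg h he, q1 x hx]
  have h3 := q2 (-qt w x) (by rw [e]; exact ⟨by linarith [hx.2], by linarith [hx.1]⟩)
  rw [e] at h3
  exact h3

theorem t_GOODB : S_GOODB := by
  intro w K δ h he hδ hδ2 ⟨b, bc, b0, blat, bdom⟩
  have hmap : MapsTo (fun x : ℝ => 1 - x) (Icc 0 1) (Icc 0 1) := fun x hx =>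
    ⟨by linarith [hx.2], by linarith [hx.1]⟩
  refine ⟨fun x => max (b x) (b (1 - x)), ?_, ?_, ?_, ?_, ?_⟩
  · exact continuous_max.comp_continuousOn (bc.prodMk (bc.comp (by fun_prop) hmap))
  · intro x hx
    exact le_max_of_le_left (b0 x hx)
  · intro x hx
    have : 1 - (1 - x) = x := by ring
    simp only [this]
    exact max_comm _ _
  · have ht : Tendsto (fun N : ℕ => 2 * N) atTop atTop :=
      tendsto_id.const_mul_atTop' (by norm_num)
    filter_upwards [ht.eventually blat] with N hN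
    obtain ⟨W, c, m, hW, hc⟩ := hN
    refine ⟨sW N W m, sc N W c, m, sym_WB hW, fun k hk => ?_⟩
    have hN0 : (0 : ℝ) < ((2 * N : ℕ) : ℝ) := by
      exact_mod_cast (by omega : 0 < 2 * N)
    have hsq : (0 : ℝ) ≤ ((2 * N : ℕ) : ℝ) ^ 2 := by positivity
    apply sc_le hW hk
    · refine (hc k hk).trans ?_
      unfold rt
      exact mul_le_mul_of_nonneg_left (le_max_left _ _) hsq
    · refine (hc _ (by omega)).trans ?_
      unfold rt
      apply mul_le_mul_of_nonneg_left _ hsq
      have e : ((2 * N - 2 - k : ℕ) : ℝ) + 1 = ((2 * N : ℕ) : ℝ) - ((k : ℝ) + 1) := by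
        have : (2 * N - 2 - k : ℕ) + 1 + (k + 1) = 2 * N := by omega
        have h5 : (((2 * N - 2 - k : ℕ) : ℝ) + 1 + ((k : ℝ) + 1)) = ((2 * N : ℕ) : ℝ) := by
          exact_mod_cast this
        linarith
      rw [e, sub_div, div_self hN0.ne']
      exact le_max_right _ _
  · intro x hx
    have hx' : 1 - x ∈ Ioo (0 : ℝ) 1 := ⟨by linarith [hx.2], by linarith [hx.1]⟩
    have hd : 0 < 1 - 2 * δ := by linarith
    have hs : (0 : ℝ) ≤ (1 - 2 * δ) ^ 2 := by positivity
    rw [max_mul_of_nonneg _ _ hs]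
    apply max_le (bdom x hx)
    have h1 := bdom (1 - x) hx'
    have hy : δ + (1 - 2 * δ) * x ∈ Ioo (0 : ℝ) 1 := by
      constructor
      · nlinarith [hx.1]
      · nlinarith [hx.2]
    have e : δ + (1 - 2 * δ) * (1 - x) = 1 - (δ + (1 - 2 * δ) * x) := by ring
    rw [e, qt_symm h he hy, he] at h1
    exact h1

end Pool.Agent.J4H18.KB
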